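import Pool.Agent.P.MP_859560_lc.DescMain

namespace Pool.Agent.Results.MP_859560_lc.DescentFails

open Pool.Agent.P.MP_859560_lc

/-- Q2 (descent) fails: there is a closed permutation group whose closure in `Ω^Ω` is
reconstructible with respect to closed transformation monoids, while the group itself is not
reconstructible with respect to closed permutation groups. -/
theorem result (Ω : Type) [Countable Ω] [Infinite Ω] [TopologicalSpace Ω] [DiscreteTopology Ω] :
    ∃ G : Subgroup (Equiv.Perm Ω), IsClosedGroup G ∧ MonoidReconstructible (closureMonoid G) ∧
      ¬ GroupReconstructible G :=
  Desc.descent_fails Ω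

end Pool.Agent.Results.MP_859560_lc.DescentFails
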