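import Pool.Agent.P.MP_859560_lc.LiftMain

namespace Pool.Agent.Results.MP_859560_lc.Lifting

open Pool.Agent.P.MP_859560_lc

/-- Q1 (lifting): if a closed permutation group is reconstructible with respect to closed
permutation groups, then its closure in `Ω^Ω` is reconstructible with respect to closed
transformation monoids. -/
theorem result (Ω : Type) [Countable Ω] [Infinite Ω] [TopologicalSpace Ω] [DiscreteTopology Ω]
    (G : Subgroup (Equiv.Perm Ω)) (hG : IsClosedGroup G) (hrec : GroupReconstructible G) :
    MonoidReconstructible (closureMonoid G) :=
  lifting G hG hrec

end Pool.Agent.Results.MP_859560_lc.Lifting
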